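import Mathlib
import Pool.Agent.H888R3.P3Game
import Pool.Agent.H888R3.K3Core

set_option autoImplicit false

/-!
The conjectured relation `f⁺_H(n) = Θ(max_e f⁻_{H-e}(n))` between the upper threshold of the strict
`(1:b)` Avoider-Enforcer `H`-game and the lower thresholds of the games of the edge-deleted
subgraphs fails for the triangle.
-/

namespace Pool.Agent.Results.MP_fe1fea_co.TriangleFails

open Finset Filter

/-- The board: the edges of `K_n`. -/
def board (n : ℕ) : Finset (Sym2 (Fin n)) := univ.filter (fun e => ¬ e.IsDiag)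

/-- Enforcer has a winning strategy in the strict `(1:b)` Avoider-Enforcer `H`-game on `K_n`, Avoider
moving first. `S` is a set of positions (Avoider's edges, Enforcer's edges) with Avoider to move: it
contains the empty position, whenever the board is exhausted in a position of `S` Avoider's graph
contains a copy of `H`, and for each position of `S` and each free edge `e` claimed by Avoider,
Enforcer can claim exactly `b` free edges (all free edges if there are fewer) such that the new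
position is in `S`. -/
def EnforcerWins {V : Type} (H : SimpleGraph V) (n b : ℕ) : Prop :=
  ∃ S : Set (Finset (Sym2 (Fin n)) × Finset (Sym2 (Fin n))), (∅, ∅) ∈ S ∧
    ∀ p ∈ S,
      (board n \ (p.1 ∪ p.2) = ∅ →
        H.IsContained (SimpleGraph.fromEdgeSet (p.1 : Set (Sym2 (Fin n))))) ∧
      ∀ e ∈ board n \ (p.1 ∪ p.2), ∃ T ⊆ board n \ insert e (p.1 ∪ p.2),
        T.card = min b (board n \ insert e (p.1 ∪ p.2)).card ∧ (insert e p.1, p.2 ∪ T) ∈ S

/-- The upper threshold `f⁺_H(n)`: the largest `b ≥ 1` for which Enforcer wins (`0` if there is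
none). -/
noncomputable def fPlus {V : Type} (H : SimpleGraph V) (n : ℕ) : ℕ :=
  sSup {b : ℕ | 1 ≤ b ∧ EnforcerWins H n b}

/-- The lower threshold `f⁻_H(n)`: the largest `m` such that Enforcer wins for every `b` with
`1 ≤ b ≤ m`. -/
noncomputable def fMinus {V : Type} (H : SimpleGraph V) (n : ℕ) : ℕ :=
  sSup {m : ℕ | ∀ b : ℕ, 1 ≤ b → b ≤ m → EnforcerWins H n b}

/-- The vertices that remain in `H - e`: all vertices except the ends of `e` of degree one. -/
def keep {V : Type} (H : SimpleGraph V) (e : Sym2 V) : Set V :=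
  {v | ¬ (v ∈ e ∧ (H.neighborSet v).ncard = 1)}

/-- The graph `H - e`, obtained from `H` by deleting the edge `e` together with any end of `e` that
has degree one in `H`. -/
def edgeDel {V : Type} (H : SimpleGraph V) (e : Sym2 V) : SimpleGraph (keep H e) :=
  (H.deleteEdges {e}).induce (keep H e)

/-- `max_{e ∈ E(H)} f⁻_{H-e}(n)` -/
noncomputable def maxLower {V : Type} (H : SimpleGraph V) (n : ℕ) : ℕ :=
  sSup {k : ℕ | ∃ e ∈ H.edgeSet, k = fMinus (edgeDel H e) n}

/-- The assertion of Q1: for every finite graph `H` with at least three edges,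
`f⁺_H(n) = Θ(max_{e ∈ E(H)} f⁻_{H-e}(n))`. -/
def Q1 : Prop :=
  ∀ (V : Type) [Fintype V] (H : SimpleGraph V), 3 ≤ H.edgeSet.ncard →
    ∃ c C : ℝ, 0 < c ∧ 0 < C ∧ ∀ᶠ n : ℕ in atTop,
      c * maxLower H n ≤ fPlus H n ∧ (fPlus H n : ℝ) ≤ C * maxLower H n

/-- the triangle -/
abbrev K3 : SimpleGraph (Fin 3) := ⊤

lemma keep_K3 (e : Sym2 (Fin 3)) (v : Fin 3) : v ∈ keep K3 e := by
  rintro ⟨_, h⟩
  have h2 : (K3.neighborSet v) = {v}ᶜ := by
    ext w; simp [eq_comm]
  rw [h2, Set.ncard_compl] at h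
  simp at h

/-- A graph with two adjacent edges contains each edge-deleted triangle. -/
lemma contained_of_PP {n : ℕ} {A : Finset (Sym2 (Fin n))} (hA : A ⊆ Pool.Agent.H888R3.P3.Ed n)
    (h : Pool.Agent.H888R3.P3.PP A) (e : Sym2 (Fin 3)) (he : e ∈ K3.edgeSet) :
    (edgeDel K3 e).IsContained (SimpleGraph.fromEdgeSet (A : Set (Sym2 (Fin n)))) := by
  obtain ⟨x, y, z, hxz, h1, h2⟩ := h
  have hxy : x ≠ y := by
    have := hA h1
    rwa [Pool.Agent.H888R3.P3.mem_Ed] at this
  have hyz : y ≠ z := by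
    have := hA h2
    rwa [Pool.Agent.H888R3.P3.mem_Ed] at this
  induction e with
  | _ a b =>
    have hab : a ≠ b := he
    let f : Fin 3 → Fin n := fun v => if v = a then x else if v = b then z else y
    have hfa : f a = x := by simp [f]
    have hfb : f b = z := by simp [f, hab.symm]
    have hfo : ∀ v, v ≠ a → v ≠ b → f v = y := by intro v h1 h2; simp [f, h1, h2]
    have hthird : ∀ v w : Fin 3, v ≠ a → v ≠ b → w ≠ a → w ≠ b → v = w := by
      intro v w; revert hab; clear * -; revert a b v w; decide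
    refine ⟨⟨⟨fun v => f v.1, ?_⟩, ?_⟩⟩
    · intro v w hvw
      have hvw' : (K3.deleteEdges {s(a, b)}).Adj v.1 w.1 := hvw
      rw [SimpleGraph.deleteEdges_adj] at hvw'
      obtain ⟨hne, hnot⟩ := hvw'
      have hne' : v.1 ≠ w.1 := hne
      rw [Set.mem_singleton_iff, Sym2.eq_iff] at hnot
      rw [SimpleGraph.fromEdgeSet_adj]
      by_cases hva : v.1 = a
      · have hwb : w.1 ≠ b := fun h => hnot (Or.inl ⟨hva, h⟩)
        have hwa : w.1 ≠ a := fun h => hne' (hva.trans h.symm)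
        simp only [hva, hfa, hfo _ hwa hwb]
        exact ⟨by exact_mod_cast h1, hxy⟩
      · by_cases hvb : v.1 = b
        · have hwa : w.1 ≠ a := fun h => hnot (Or.inr ⟨hvb, h⟩)
          have hwb : w.1 ≠ b := fun h => hne' (hvb.trans h.symm)
          simp only [hvb, hfb, hfo _ hwa hwb]
          refine ⟨?_, hyz.symm⟩
          rw [Sym2.eq_swap]; exact_mod_cast h2
        · simp only [hfo _ hva hvb]
          by_cases hwa : w.1 = a
          · simp only [hwa, hfa]
            refine ⟨?_, hxy.symm⟩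
            rw [Sym2.eq_swap]; exact_mod_cast h1
          · by_cases hwb : w.1 = b
            · simp only [hwb, hfb]
              exact ⟨by exact_mod_cast h2, hyz⟩
            · exact absurd (hthird _ _ hva hvb hwa hwb) hne'
    · intro v w hvw
      have hvw' : f v.1 = f w.1 := hvw
      apply Subtype.ext
      by_contra hne
      by_cases hva : v.1 = a
      · rw [hva, hfa] at hvw'
        by_cases hwb : w.1 = b
        · rw [hwb, hfb] at hvw'; exact hxz hvw'
        · rw [hfo _ (fun h => hne (hva.trans h.symm)) hwb] at hvw'; exact hxy hvw'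
      · by_cases hvb : v.1 = b
        · rw [hvb, hfb] at hvw'
          by_cases hwa : w.1 = a
          · rw [hwa, hfa] at hvw'; exact hxz hvw'.symm
          · rw [hfo _ hwa (fun h => hne (hvb.trans h.symm))] at hvw'; exact hyz hvw'.symm
        · rw [hfo _ hva hvb] at hvw'
          by_cases hwa : w.1 = a
          · rw [hwa, hfa] at hvw'; exact hxy hvw'.symm
          · by_cases hwb : w.1 = b
            · rw [hwb, hfb] at hvw'; exact hyz hvw'
            · exact hne (hthird _ _ hva hvb hwa hwb)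

/-- Enforcer wins the games of the edge-deleted triangles if `400 b² ≤ n³`. -/
lemma enforcer_wins {n b : ℕ} (hn : 400 ≤ n) (hb : 400 * b ^ 2 ≤ n ^ 3) (e : Sym2 (Fin 3))
    (he : e ∈ K3.edgeSet) : EnforcerWins (edgeDel K3 e) n b := by
  obtain ⟨W, _, hW⟩ := exists_subset_card_eq (s := (univ : Finset (Fin n))) (n := n / 2)
    (by simp; omega)
  have hWc : Wᶜ.card = n - n / 2 := by
    rw [card_compl, Fintype.card_fin, hW]
  obtain ⟨S, hS0, hS⟩ := Pool.Agent.H888R3.P3.enforcer (b := b) W (by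
    intro j hj
    rw [hWc] at hj
    rw [hW]
    set w := n / 2 with hw
    have hw1 : n ≤ 2 * w + 1 := by omega
    have hw2 : 2 * w ≤ n := by omega
    have h2N : 2 * w.choose 2 = w * (w - 1) := by
      rw [Nat.choose_two_right, Nat.mul_div_cancel' (Nat.even_mul_pred_self w).two_dvd]
    obtain ⟨w', hw'⟩ : ∃ w', w = w' + 1 := ⟨w - 1, by omega⟩
    have h3 : w * (w - 1) = (w' + 1) * w' := by rw [hw']; rfl
    rw [h3] at h2N
    -- j n ≤ 8 b
    have hj4 : j * n ≤ 8 * b := by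
      have h4 : n ≤ 4 * (n - w - 2) := by omega
      calc j * n ≤ j * (4 * (n - w - 2)) := Nat.mul_le_mul_left _ h4
        _ = 4 * (j * (n - w - 2)) := by ring
        _ ≤ 4 * (2 * b) := Nat.mul_le_mul_left _ hj
        _ = 8 * b := by ring
    -- 50 b j ≤ n^2
    have hnpos : 0 < n := by omega
    have hbj : 50 * (b * j) ≤ n ^ 2 := by
      have h5 : 50 * (b * j) * n ≤ n ^ 2 * n := by
        calc 50 * (b * j) * n = 50 * b * (j * n) := by ring
          _ ≤ 50 * b * (8 * b) := Nat.mul_le_mul_left _ hj4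
          _ = 400 * b ^ 2 := by ring
          _ ≤ n ^ 3 := hb
          _ = n ^ 2 * n := by ring
      exact Nat.le_of_mul_le_mul_right h5 hnpos
    -- 400 b ≤ n^2
    have hb4 : 400 * b ≤ n ^ 2 := by
      have h6 : (400 * b) ^ 2 ≤ (n ^ 2) ^ 2 := by
        calc (400 * b) ^ 2 = 400 * (400 * b ^ 2) := by ring
          _ ≤ 400 * n ^ 3 := Nat.mul_le_mul_left _ hb
          _ ≤ n * n ^ 3 := Nat.mul_le_mul_right _ hn
          _ = (n ^ 2) ^ 2 := by ring
      exact (Nat.pow_le_pow_iff_left (by norm_num)).mp h6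
    have hjw : 2 * j * w ≤ j * n := by
      calc 2 * j * w = j * (2 * w) := by ring
        _ ≤ j * n := Nat.mul_le_mul_left _ hw2
    have hn2 : n ^ 2 ≤ (2 * w' + 3) ^ 2 := Nat.pow_le_pow_left (by omega) 2
    have hw'l : 198 ≤ w' := by omega
    nlinarith)
  refine ⟨S, hS0, fun p hp => ?_⟩
  obtain ⟨h1, h2, h3⟩ := hS p hp
  exact ⟨fun hfull => contained_of_PP h1 (h2 hfull) e he, h3⟩

/-- With a very large bias Avoider wins. -/
lemma not_wins_large {n b : ℕ} (hn : 2 ≤ n) (hb : (board n).card ≤ b) (e : Sym2 (Fin 3))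
    (he : e ∈ K3.edgeSet) : ¬ EnforcerWins (edgeDel K3 e) n b := by
  rintro ⟨S, hS0, hS⟩
  obtain ⟨n', rfl⟩ : ∃ n', n = n' + 2 := ⟨n - 2, by omega⟩
  have h01 : (0 : Fin (n' + 2)) ≠ 1 := by simp
  have hmem : s((0 : Fin (n' + 2)), 1) ∈ board (n' + 2) \ (∅ ∪ ∅) := by
    simp [board]
  obtain ⟨T, hT, hTc, hTS⟩ := (hS _ hS0).2 _ hmem
  have hT2 : T = board (n' + 2) \ insert s((0 : Fin (n' + 2)), 1) (∅ ∪ ∅) := by
    apply eq_of_subset_of_card_le hT
    rw [hTc]
    apply le_min _ le_rfl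
    exact (card_le_card sdiff_subset).trans hb
  have hfull : board (n' + 2) \ ((insert s((0 : Fin (n' + 2)), 1) ∅) ∪ (∅ ∪ T)) = ∅ := by
    rw [hT2, Finset.eq_empty_iff_forall_notMem]
    intro z hz
    rw [Finset.mem_sdiff, Finset.mem_union, Finset.mem_union, Finset.mem_sdiff, not_or, not_or] at hz
    apply hz.2.2.2
    refine ⟨hz.1, ?_⟩
    intro hz2
    rcases Finset.mem_insert.mp hz2 with h | h
    · exact hz.2.1 (h ▸ Finset.mem_insert_self _ _)
    · simp at h
  obtain ⟨g⟩ := (hS _ hTS).1 hfull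
  induction e with
  | _ a b =>
    have hab : a ≠ b := he
    obtain ⟨c, hca, hcb⟩ : ∃ c : Fin 3, c ≠ a ∧ c ≠ b := by
      clear * -; revert a b; decide
    have hadj : ∀ v : Fin 3, v ≠ c → (edgeDel K3 s(a, b)).Adj
        ⟨v, keep_K3 _ v⟩ ⟨c, keep_K3 _ c⟩ := by
      intro v hv
      show (K3.deleteEdges {s(a, b)}).Adj v c
      rw [SimpleGraph.deleteEdges_adj]
      refine ⟨hv, ?_⟩
      rw [Set.mem_singleton_iff, Sym2.eq_iff]
      rintro (⟨_, h⟩ | ⟨_, h⟩)
      · exact hcb h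
      · exact hca h
    have h1 := g.toHom.map_adj (hadj a hca.symm)
    have h2 := g.toHom.map_adj (hadj b hcb.symm)
    rw [SimpleGraph.fromEdgeSet_adj] at h1 h2
    have h3 := h1.1
    have h4 := h2.1
    simp only [insert_empty_eq, coe_singleton, Set.mem_singleton_iff] at h3 h4
    have h5 := h3.trans h4.symm
    rw [Sym2.eq_iff] at h5
    rcases h5 with ⟨h6, _⟩ | ⟨h6, h7⟩
    · have := g.injective h6
      exact hab (congrArg Subtype.val this)
    · have := g.injective h6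
      exact hca.symm (congrArg Subtype.val this)

lemma fMinus_bdd {n : ℕ} (hn : 2 ≤ n) (e : Sym2 (Fin 3)) (he : e ∈ K3.edgeSet) :
    BddAbove {m : ℕ | ∀ b : ℕ, 1 ≤ b → b ≤ m → EnforcerWins (edgeDel K3 e) n b} := by
  refine ⟨(board n).card + 1, ?_⟩
  intro m hm
  by_contra hlt
  push Not at hlt
  exact not_wins_large hn (by omega : (board n).card ≤ (board n).card + 1) e he
    (hm ((board n).card + 1) (by omega) (by omega))

/-- The lower thresholds of the edge-deleted triangles are at least `n^(3/2)/40`. -/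
lemma fMinus_lower {n : ℕ} (hn : 400 ≤ n) (e : Sym2 (Fin 3)) (he : e ∈ K3.edgeSet) :
    (n : ℝ) ^ (3 / 2 : ℝ) / 40 ≤ fMinus (edgeDel K3 e) n := by
  have hnpos : (0 : ℝ) < n := by exact_mod_cast (by omega : 0 < n)
  have h1 : ((n : ℝ) ^ (3 / 2 : ℝ)) ^ 2 = (n : ℝ) ^ 3 := by
    rw [← Real.rpow_natCast, ← Real.rpow_mul hnpos.le, ← Real.rpow_natCast]
    norm_num
  set y : ℝ := (n : ℝ) ^ (3 / 2 : ℝ) with hy
  have hy0 : 0 ≤ y := by positivity
  have hn400 : (400 : ℝ) ≤ n := by exact_mod_cast hn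
  have hy40 : 40 ≤ y := by
    by_contra hlt
    push Not at hlt
    have h2 : y ^ 2 < 40 ^ 2 := by
      apply pow_lt_pow_left₀ hlt hy0 (by norm_num)
    rw [h1] at h2
    have : (400 : ℝ) ^ 3 ≤ n ^ 3 := by gcongr
    norm_num at h2 this
    linarith
  have hmem : ⌊y / 20⌋₊ ∈ {m : ℕ | ∀ b : ℕ, 1 ≤ b → b ≤ m → EnforcerWins (edgeDel K3 e) n b} := by
    intro b _ hb
    apply enforcer_wins hn _ e he
    have h3 : (b : ℝ) ≤ y / 20 := (Nat.cast_le.mpr hb).trans (Nat.floor_le (by positivity))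
    have h4 : (400 : ℝ) * b ^ 2 ≤ n ^ 3 := by
      rw [← h1]
      have hb0 : (0 : ℝ) ≤ b := by positivity
      nlinarith
    exact_mod_cast h4
  have h2 : ⌊y / 20⌋₊ ≤ fMinus (edgeDel K3 e) n := le_csSup (fMinus_bdd (by omega) e he) hmem
  have h3 : y / 20 < ⌊y / 20⌋₊ + 1 := Nat.lt_floor_add_one _
  have h4 : ((⌊y / 20⌋₊ : ℕ) : ℝ) ≤ (fMinus (edgeDel K3 e) n : ℝ) := by exact_mod_cast h2
  linarith

/-- For infinitely many `n`, the upper threshold of the triangle game is smaller than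
`c n^(3/2)`. -/
lemma fPlus_upper (c : ℝ) (hc : 0 < c) (n₀ : ℕ) : ∃ n : ℕ, n₀ ≤ n ∧
    (fPlus K3 n : ℝ) ≤ c * (n : ℝ) ^ (3 / 2 : ℝ) := by
  obtain ⟨n, hn, h⟩ := Pool.Agent.H888R3.k3_core c hc n₀
  refine ⟨n, hn, ?_⟩
  have h1 : ∀ b ∈ {b : ℕ | 1 ≤ b ∧ EnforcerWins K3 n b}, b ≤ ⌊c * (n : ℝ) ^ (3 / 2 : ℝ)⌋₊ := by
    rintro b ⟨_, S, hS0, hS⟩
    apply Nat.le_floor
    by_contra hlt
    push Not at hlt
    exact h b hlt.le S ⟨hS0, fun p hp => ⟨(hS p hp).1, fun e he => by
      obtain ⟨T, hT1, hT2, hT3⟩ := (hS p hp).2 e he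
      exact ⟨T, hT1, hT2, hT3⟩⟩⟩
  have h2 : fPlus K3 n ≤ ⌊c * (n : ℝ) ^ (3 / 2 : ℝ)⌋₊ := by
    unfold fPlus
    rcases Set.eq_empty_or_nonempty {b : ℕ | 1 ≤ b ∧ EnforcerWins K3 n b} with he | hne
    · rw [he]; simp
    · exact csSup_le hne h1
  calc (fPlus K3 n : ℝ) ≤ (⌊c * (n : ℝ) ^ (3 / 2 : ℝ)⌋₊ : ℝ) := by exact_mod_cast h2
    _ ≤ c * (n : ℝ) ^ (3 / 2 : ℝ) := Nat.floor_le (by positivity)

/-- **The conjectured relation fails for the triangle.** For every `c > 0` there are infinitely many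
`n` with `f⁺_{K₃}(n) < c f⁻_{K₃-e}(n)` for every edge `e` of `K₃`; consequently it is not true that
`f⁺_H(n) = Θ(max_e f⁻_{H-e}(n))` for every graph `H` with at least three edges. -/
theorem result :
    (∀ c : ℝ, 0 < c → ∀ n₀ : ℕ, ∃ n : ℕ, n₀ ≤ n ∧ ∀ e ∈ K3.edgeSet,
      (fPlus K3 n : ℝ) < c * fMinus (edgeDel K3 e) n) ∧
    ¬ Q1 := by
  have main : ∀ c : ℝ, 0 < c → ∀ n₀ : ℕ, ∃ n : ℕ, n₀ ≤ n ∧ ∀ e ∈ K3.edgeSet,
      (fPlus K3 n : ℝ) < c * fMinus (edgeDel K3 e) n := by
    intro c hc n₀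
    obtain ⟨n, hn, h⟩ := fPlus_upper (c / 80) (by positivity) (max n₀ 400)
    have hn1 : n₀ ≤ n := (le_max_left _ _).trans hn
    have hn2 : 400 ≤ n := (le_max_right _ _).trans hn
    refine ⟨n, hn1, ?_⟩
    intro e he
    have h1 := fMinus_lower hn2 e he
    have hnpos : (0 : ℝ) < n := by exact_mod_cast (by omega : 0 < n)
    have h2 : (0 : ℝ) < (n : ℝ) ^ (3 / 2 : ℝ) := by positivity
    calc (fPlus K3 n : ℝ) ≤ c / 80 * (n : ℝ) ^ (3 / 2 : ℝ) := h
      _ < c * ((n : ℝ) ^ (3 / 2 : ℝ) / 40) := by nlinarith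
      _ ≤ c * fMinus (edgeDel K3 e) n := by gcongr
  refine ⟨main, ?_⟩
  intro hQ
  have h3 : 3 ≤ (K3.edgeSet).ncard := by
    rw [← SimpleGraph.coe_edgeFinset, Set.ncard_coe_finset]
    decide
  obtain ⟨c, C, hc, _, hev⟩ := hQ (Fin 3) K3 h3
  obtain ⟨n₀, hn₀⟩ := eventually_atTop.mp hev
  obtain ⟨n, hn, h⟩ := main c hc n₀
  have h4 := (hn₀ n hn).1
  have he : s((0 : Fin 3), 1) ∈ K3.edgeSet := by simp
  have h5 := h _ he
  have h6 : fMinus (edgeDel K3 s((0 : Fin 3), 1)) n ≤ maxLower K3 n := by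
    unfold maxLower
    refine le_csSup ?_ ⟨s((0 : Fin 3), 1), he, rfl⟩
    have hfin : {k : ℕ | ∃ e ∈ K3.edgeSet, k = fMinus (edgeDel K3 e) n}.Finite := by
      have : {k : ℕ | ∃ e ∈ K3.edgeSet, k = fMinus (edgeDel K3 e) n} =
          (fun e => fMinus (edgeDel K3 e) n) '' K3.edgeSet := by
        ext k
        constructor
        · rintro ⟨e, he, rfl⟩; exact ⟨e, he, rfl⟩
        · rintro ⟨e, he, rfl⟩; exact ⟨e, he, rfl⟩
      rw [this]
      exact (Set.toFinite _).image _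
    exact hfin.bddAbove
  have h7 : (fMinus (edgeDel K3 s((0 : Fin 3), 1)) n : ℝ) ≤ maxLower K3 n := by exact_mod_cast h6
  nlinarith

end Pool.Agent.Results.MP_fe1fea_co.TriangleFails
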